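import Mathlib
import Pool.Agent.Q133.OctGeom

set_option autoImplicit false

/-!
# A normed plane with a 5-chromatic unit distance graph on 69 vertices
-/

namespace Pool.Agent.Results.MP_a2d1c1_co.OctagonSixtyNine

open Q133.Octagon

/-- There is a compact convex set `K` of `ℝ²` with nonempty interior and `K = -K` such that the
normed plane with unit circle `∂K` (that is, with norm `gauge K`) contains a set `V` of 69 points
whose unit distance graph (all pairs of points of `V` at distance one) has chromatic number 5. -/
theorem result : ∃ K : Set (ℝ × ℝ), Convex ℝ K ∧ IsCompact K ∧ (interior K).Nonempty ∧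
    (∀ p, p ∈ K → -p ∈ K) ∧ ∃ V : Set (ℝ × ℝ), V.ncard = 69 ∧
      ((unitDistance K).induce V).chromaticNumber = 5 := by
  refine ⟨oct, convex_oct, compact_oct, interior_oct, neg_oct, Set.range pt, ?_, ?_⟩
  · rw [← Set.image_univ, Set.ncard_image_of_injective _ pt_inj, Set.ncard_univ]
    simp
  · have h5 : ((unitDistance oct).induce (Set.range pt)).Colorable 5 := by
      let e : Fin 69 ≃ Set.range pt := Equiv.ofInjective pt pt_inj
      refine ⟨SimpleGraph.Coloring.mk (fun v => (⟨col5.getD (e.symm v) 0, col5_lt _⟩ : Fin 5)) ?_⟩
      intro v w h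
      obtain ⟨i, rfl⟩ := e.surjective v
      obtain ⟨j, rfl⟩ := e.surjective w
      have h' : (unitDistance oct).Adj (pt i) (pt j) := h
      rw [adj_iff] at h'
      intro heq
      rw [Fin.mk.injEq, e.symm_apply_apply, e.symm_apply_apply] at heq
      exact col5_ok i j h' heq
    have h4 : ¬ ((unitDistance oct).induce (Set.range pt)).Colorable 4 := by
      rintro ⟨c⟩
      let col : ℕ → Fin 4 := fun i =>
        if h : i < 69 then c ⟨pt ⟨i, h⟩, ⟨i, h⟩, rfl⟩ else 0
      have hcol : ∀ i j, (nb i).testBit j = true → col i ≠ col j := by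
        intro i j h
        have hi : i < 69 := by
          by_contra hi
          have : nb i = 0 := by
            unfold nb
            rw [List.getD_eq_default]
            have : masks.length = 69 := by decide +kernel
            omega
          rw [this] at h
          simp at h
        have hj : j < 69 := by
          by_contra hj
          rw [Nat.testBit_lt_two_pow (lt_of_lt_of_le (masks_lt ⟨i, hi⟩)
            (Nat.pow_le_pow_right (by norm_num) (not_lt.1 hj)))] at h
          exact absurd h (by simp)
        have hadj : (unitDistance oct).Adj (pt ⟨i, hi⟩) (pt ⟨j, hj⟩) := by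
          rw [adj_iff, ← masks_ok ⟨i, hi⟩ ⟨j, hj⟩]
          exact h
        have hv := c.valid (v := ⟨pt ⟨i, hi⟩, ⟨i, hi⟩, rfl⟩) (w := ⟨pt ⟨j, hj⟩, ⟨j, hj⟩, rfl⟩)
          hadj
        simp only [col, dif_pos hi, dif_pos hj]
        exact hv
      obtain ⟨t, ht⟩ := Option.isSome_iff_exists.1 check_ok
      exact Q133.FourCol.refute nb 80 stream t 4 14 36 (by decide +kernel) (by decide +kernel)
        (by decide +kernel) ht col hcol
    apply le_antisymm
    · exact SimpleGraph.chromaticNumber_le_iff_colorable.2 h5
    · by_contra h
      rw [not_le] at h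
      refine h4 (SimpleGraph.chromaticNumber_le_iff_colorable.1 ?_)
      have h6 : ((unitDistance oct).induce (Set.range pt)).chromaticNumber <
          ((4 : ℕ) : ℕ∞) + 1 := by
        have : ((4 : ℕ) : ℕ∞) + 1 = 5 := by norm_num
        rw [this]; exact h
      exact ENat.lt_add_one_iff (by simp) |>.1 h6

end Pool.Agent.Results.MP_a2d1c1_co.OctagonSixtyNine
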